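import Mathlib
import Pool.Agent.Y442.EC.Dn

/-!
# The canonical degree of curves of genus one on all blow-ups of `E × ℙ¹` at finite sets

Let `E = ℂ / Λ` be any complex elliptic curve, `S ⊂ E × ℙ¹` a finite set of points, and `X` the
blow-up of `E × ℙ¹` at `S`.  We consider the curves `C ⊂ X` of geometric genus one given by maps
`E → E × ℙ¹`, `t ↦ (m t + c, f t)` (`EllipticCurveOn`, in `Pool.Agent.TH172.ER.Defs`), and their
canonical degrees `K_X · C` (`canonicalDegree`, in `Pool.Agent.Y442.EC.Kd`).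

* If the points of `S` lie on at most two of the curves `E × {v}`, then `K_X · C ≤ |S|`.
* If `S` contains three points on three different curves `E × {v}`, and the first coordinates of two
  of these points differ by a torsion point of `E` (the third point is arbitrary), then `K_X · C` is
  unbounded, and grows like the square root of the degree of `C` over `E`.
* So if the first coordinates of the points of `S` differ by torsion points (for example if `S` lies
  in one fibre `{e} × ℙ¹`), then `K_X · C` is unbounded if and only if `S` meets at least three of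
  the curves `E × {v}`.
* For every `r ≥ 3` the `r`-tuples of points of `E × ℙ¹` on whose blow-up `K_X · C` is unbounded are
  dense in `(E × ℙ¹)^r`.

As `A (g - 1) + B = B` for `g = 1`, on none of the blow-ups with unbounded `K_X · C` does an
inequality `K_X · C ≤ A (g - 1) + B` hold.

The curves: let `S` contain `(e₁, 0)`, `(e₂, ∞)`, `(e₃, 1)`, with `e₁ - e₂` torsion. For `M` large
take an elliptic function `h` with simple zeros and poles, the zeros killed by `M`, the poles mapped
to `e₂ - e₁` by `M` (a product of sigma functions), and `(M + 1) c = e₃ - e₁`. The curve is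
`t ↦ (M (M + 1) t + e₁, h((M + 1) t) / h(t + c))`.
-/

open scoped OnePoint
open H4EP Pool.Agent.TH172.ER Pool.Agent.Y442.EC

namespace Pool.Agent.Results.MP_308c18_ag.ThreeSections

theorem two_sections {L : PeriodPair} [DecidableEq (OnePoint ℂ)] (S : Finset (Surface L))
    (h : (S.image Prod.snd).card ≤ 2) :
    ∃ v₁ v₂ : OnePoint ℂ, ∀ p ∈ S, p.2 = v₁ ∨ p.2 = v₂ := by
  rcases Nat.lt_or_ge (S.image Prod.snd).card 2 with h1 | h1
  · rcases Finset.card_le_one_iff_subset_singleton.1 (Nat.lt_succ_iff.1 h1) with ⟨v, hv⟩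
    exact ⟨v, v, fun p hp => Or.inl
      (Finset.mem_singleton.1 (hv (Finset.mem_image_of_mem Prod.snd hp)))⟩
  · obtain ⟨v, w, -, hvw⟩ := Finset.card_eq_two.1 (le_antisymm h h1)
    refine ⟨v, w, fun p hp => ?_⟩
    have h2 := Finset.mem_image_of_mem Prod.snd hp
    rw [hvw, Finset.mem_insert, Finset.mem_singleton] at h2
    exact h2

open Classical in
/-- **Main theorem.**  `E = ℂ / Λ` is any complex elliptic curve, `S ⊂ E × ℙ¹` a finite set. -/
theorem result (L : PeriodPair) :
    -- (1) the points of `S` lie on at most two curves `E × {v}`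
    (∀ (S : Finset (Surface L)) (v₁ v₂ : OnePoint ℂ), (∀ p ∈ S, p.2 = v₁ ∨ p.2 = v₂) →
      ∀ C : EllipticCurveOn L, canonicalDegree C S ≤ S.card) ∧
    -- (2) three points on different curves `E × {v}`, two of them in torsion position
    (∀ S : Finset (Surface L), ∀ p₁ ∈ S, ∀ p₂ ∈ S, ∀ p₃ ∈ S,
      p₁.2 ≠ p₂.2 → p₁.2 ≠ p₃.2 → p₂.2 ≠ p₃.2 → (∃ n : ℕ, n ≠ 0 ∧ n • p₁.1 = n • p₂.1) →
      (∃ k M₀ : ℕ, ∀ M : ℕ, M₀ ≤ M → ∃ C : EllipticCurveOn L, C.m = M * (M + 1) ∧
        (∀ v, C.sectionDegree v ≤ ((M + 1) ^ 2 + 1) * k) ∧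
        (M : ℤ) ^ 2 ≤ canonicalDegree C S + 8 * k) ∧
      ∀ B : ℝ, ∃ C : EllipticCurveOn L, B < (canonicalDegree C S : ℝ)) ∧
    -- (3) a criterion
    (∀ S : Finset (Surface L), (∀ p ∈ S, ∀ q ∈ S, ∃ n : ℕ, n ≠ 0 ∧ n • p.1 = n • q.1) →
      ((∀ B : ℝ, ∃ C : EllipticCurveOn L, B < (canonicalDegree C S : ℝ)) ↔
        3 ≤ (S.image Prod.snd).card)) ∧
    -- (4) density
    (∀ r : ℕ, 3 ≤ r → Dense {p : Fin r → Surface L | Function.Injective p ∧
      ∀ B : ℝ, ∃ C : EllipticCurveOn L, B < (canonicalDegree C (Finset.univ.image p) : ℝ)}) := by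
  refine ⟨upper, ?_, ?_, fun r hr => dense_unbounded hr⟩
  · rintro S p₁ h₁ p₂ h₂ p₃ h₃ h12 h13 h23 ⟨n, hn, hε⟩
    have h := growth S h₁ h₂ h₃ h12 h13 h23 hn hε
    exact ⟨h, fun B => unbounded_of_growth h B⟩
  · intro S hS
    constructor
    · intro h
      by_contra hc
      obtain ⟨v₁, v₂, hv⟩ := two_sections S (by omega)
      obtain ⟨C, hC⟩ := h (S.card : ℝ)
      have h1 := upper S v₁ v₂ hv C
      have h2 : (canonicalDegree C S : ℝ) ≤ (S.card : ℝ) := by exact_mod_cast h1
      linarith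
    · intro h B
      obtain ⟨v₁, m₁, v₂, m₂, v₃, m₃, d12, d13, d23⟩ := Finset.two_lt_card.1 h
      obtain ⟨p₁, h₁, rfl⟩ := Finset.mem_image.1 m₁
      obtain ⟨p₂, h₂, rfl⟩ := Finset.mem_image.1 m₂
      obtain ⟨p₃, h₃, rfl⟩ := Finset.mem_image.1 m₃
      obtain ⟨n, hn, hε⟩ := hS p₁ h₁ p₂ h₂
      exact unbounded_of_growth (growth S h₁ h₂ h₃ d12 d13 d23 hn hε) B

end Pool.Agent.Results.MP_308c18_ag.ThreeSections
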